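import Mathlib

set_option autoImplicit false

universe u

namespace Pool.Agent.Results.MP_c8c065_al.Nil

theorem unit_of_mem {R : Type u} [Ring R] (x : R) (hx : x ∈ Ideal.jacobson (⊥ : Ideal R)) :
    IsUnit (x + 1) := by
  obtain ⟨s, hs⟩ := Ideal.exists_mul_add_sub_mem_of_mem_jacobson x hx
  rw [Ideal.mem_bot, sub_eq_zero] at hs
  have h2 : -(s * x) ∈ Ideal.jacobson (⊥ : Ideal R) := neg_mem (Ideal.mul_mem_left _ _ hx)
  obtain ⟨t, ht⟩ := Ideal.exists_mul_add_sub_mem_of_mem_jacobson _ h2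
  rw [Ideal.mem_bot, sub_eq_zero] at ht
  have e : -(s * x) + 1 = s := by
    rw [mul_add] at hs
    rw [← hs]
    noncomm_ring
  rw [e] at ht
  have e2 : t = x + 1 := by
    calc t = t * (s * (x + 1)) := by rw [hs, mul_one]
      _ = x + 1 := by rw [← mul_assoc, ht, one_mul]
  exact ⟨⟨x + 1, s, by rw [← e2, ht], hs⟩, rfl⟩

theorem int_jacobson : IsJacobsonRing ℤ := by
  rw [isJacobsonRing_iff_prime_eq]
  intro P hP
  by_cases h : P = ⊥
  · subst h
    rw [eq_bot_iff]
    intro x hx
    have := Ideal.mem_jacobson_bot.1 hx x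
    rw [Int.isUnit_iff] at this
    rw [Ideal.mem_bot]
    rcases this with h | h <;> nlinarith
  · have := hP.isMaximal h
    exact Ideal.jacobson_eq_self_of_isMaximal

/-- The Jacobson radical of such a ring is nil. -/
theorem result (R : Type u) [Ring R]
    (h : ∀ u : Rˣ, ∃ i : ℕ, 1 ≤ i ∧ IsNilpotent ((u : R) ^ i - 1)) :
    ∀ j ∈ Ring.jacobson R, IsNilpotent j := by
  intro j hj
  have := int_jacobson
  let f : Polynomial ℤ →+* R := (Polynomial.aeval j).toRingHom
  let I := RingHom.ker f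
  have hI : Ideal.Quotient.mk I Polynomial.X ∈ Ideal.jacobson (⊥ : Ideal (Polynomial ℤ ⧸ I)) := by
    rw [Ideal.mem_jacobson_bot]
    intro y
    obtain ⟨y, rfl⟩ := Ideal.Quotient.mk_surjective y
    have h1 : IsUnit (f (Polynomial.X * y + 1)) := by
      have : j * f y ∈ Ideal.jacobson (⊥ : Ideal R) := by
        rw [Ideal.jacobson_bot]
        exact Ideal.mul_mem_right _ _ hj
      have := unit_of_mem _ this
      simpa [f] using this
    obtain ⟨i, hi, m, hm⟩ := h h1.unit
    have h2 : IsNilpotent ((Ideal.Quotient.mk I (Polynomial.X * y + 1)) ^ i - 1) := by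
      refine ⟨m, ?_⟩
      rw [← map_pow, ← map_one (Ideal.Quotient.mk I), ← map_sub, ← map_pow,
        Ideal.Quotient.eq_zero_iff_mem, RingHom.mem_ker, map_pow, map_sub, map_pow, map_one]
      exact hm
    have h3 := h2.isUnit_add_one
    rw [sub_add_cancel, isUnit_pow_iff (by omega)] at h3
    simpa using h3
  rw [← Ideal.radical_eq_jacobson] at hI
  obtain ⟨n, hn⟩ := hI
  refine ⟨n, ?_⟩
  rw [← map_pow, Ideal.mem_bot, Ideal.Quotient.eq_zero_iff_mem, RingHom.mem_ker] at hn
  simpa [f] using hn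

end Pool.Agent.Results.MP_c8c065_al.Nil
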